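import Pool.Agent.J4.H5.AS.Stick

/-!
# Gauss sums for different additive characters
-/

set_option autoImplicit false
set_option linter.unusedSectionVars false

namespace Pool.Agent.J4.H5.AS

open Finset Pool.Agent.H916T Pool.Agent.H916Z Pool.Agent.N214.HB

section shift

variable {k : Type} [Field k] [Fintype k]

/-- Gauss sums for nontrivial additive characters differ by roots of unity. -/
lemma gauss_pow_eq (χ : MulChar k ℂ) {ψ ψ' : AddChar k ℂ} (hψ : ψ ≠ 1) (hψ' : ψ' ≠ 1) :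
    (gaussSum χ ψ') ^ (Fintype.card k - 1) = (gaussSum χ ψ) ^ (Fintype.card k - 1) := by
  classical
  have hpr : ψ.IsPrimitive := AddChar.IsPrimitive.of_ne_one hψ
  obtain ⟨c, rfl⟩ := exists_shift (ψ' := ψ') hpr
  have hc : c ≠ 0 := by
    rintro rfl
    apply hψ'
    rw [AddChar.mulShift_zero]
  have h1 := gaussSum_mulShift_eq χ ψ (Units.mk0 c hc)
  rw [Units.val_mk0] at h1
  rw [h1, mul_pow]
  have h2 : (χ⁻¹ c) ^ (Fintype.card k - 1) = 1 := by
    rw [← map_pow, FiniteField.pow_card_sub_one_eq_one c hc, map_one]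
  rw [h2, one_mul]

end shift

section main

variable {k : Type} [Field k] [Fintype k] {p m : ℕ} [Fact p.Prime] [CharP k p] [NeZero m]

/-- the relation for the exponents of a product of Gauss sums -/
theorem rel_of_tuple (hmk : m ∣ Fintype.card k - 1) (θ : MulChar k ℂ) (hθ : orderOf θ = m)
    (i : ℕ) (a : Fin (2 * i) → ZMod m) (ha : ∀ j, a j ≠ 0) (ψ : Fin (2 * i) → AddChar k ℂ)
    (hψ : ∀ j, ψ j ≠ 1) (e : ℕ) (he : 0 < e) (hi : 0 < i)
    (h : (∏ j, gaussSum (θ ^ (a j).val) (ψ j)) ^ e = ((Fintype.card k : ℂ) ^ i) ^ e) :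
    p.Coprime m ∧ Rel0 p (univ.val.map a) := by
  classical
  have hQ1 : 1 < Fintype.card k := Fintype.one_lt_card
  have hQ : 0 < Fintype.card k - 1 := by omega
  have hpos : 0 < 2 * i := by omega
  set ψ0 := ψ ⟨0, hpos⟩ with hψ0
  refine rel_of_gauss hmk θ hθ ψ0 (hψ _) (univ.val.map a) ?_ i ?_ (e * (Fintype.card k - 1))
    (Nat.mul_pos he hQ) ?_
  · intro h0
    obtain ⟨j, -, hj⟩ := Multiset.mem_map.mp h0
    exact ha j hj
  · rw [Multiset.card_map]
    simp
  · rw [Multiset.map_map]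
    have h1 : (univ.val.map ((fun a => gaussSum (θ ^ a.val) ψ0) ∘ a)).prod =
        ∏ j, gaussSum (θ ^ (a j).val) ψ0 := rfl
    have h2 : (∏ j, gaussSum (θ ^ (a j).val) ψ0) ^ (Fintype.card k - 1) =
        (∏ j, gaussSum (θ ^ (a j).val) (ψ j)) ^ (Fintype.card k - 1) := by
      rw [← Finset.prod_pow, ← Finset.prod_pow]
      exact Finset.prod_congr rfl fun j _ => gauss_pow_eq _ (hψ j) (hψ _)
    rw [h1, mul_comm e, pow_mul, h2, ← pow_mul, mul_comm (Fintype.card k - 1) e, pow_mul, h,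
      ← pow_mul]

end main

end Pool.Agent.J4.H5.AS
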