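import Pool.Agent.J4.H5.AS.Free

/-!
# The proportion of the algebraic Tate lines on products of Artin-Schreier curves
-/

set_option linter.unusedSectionVars false
set_option autoImplicit false

namespace Pool.Agent.J4.H5.AS

open Finset Pool.Agent.H916R2 Pool.Agent.H916T Pool.Agent.H916U Pool.Agent.H916Z Pool.Agent.H916Q
open Pool.Agent.TH540 (SqEven)
open Pool.Agent.J4.H5.FP

section lines

variable {k : Type} [Field k] [Fintype k] {m : ℕ}

/-- the Gauss sum of a line -/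
noncomputable def gs (θ : MulChar k ℂ)
    (x : {a : ZMod m // a ≠ 0} × {ψ : AddChar k ℂ // ψ ≠ 1}) : ℂ :=
  gaussSum (θ ^ x.1.1.val) x.2.1

lemma pow_ne_one [NeZero m] {θ : MulChar k ℂ} (hθ : orderOf θ = m) {a : ZMod m} (ha : a ≠ 0) :
    θ ^ a.val ≠ 1 := by
  intro h
  have h1 : m ∣ a.val := hθ.symm.dvd.trans (orderOf_dvd_of_pow_eq_one h)
  have h2 := ZMod.val_lt a
  have h3 : a.val = 0 := Nat.eq_zero_of_dvd_of_lt h1 h2
  exact ha ((ZMod.val_eq_zero a).mp h3)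

lemma pow_neg [NeZero m] {θ : MulChar k ℂ} (hθ : orderOf θ = m) {a : ZMod m} (ha : a ≠ 0) :
    θ ^ (-a).val = (θ ^ a.val)⁻¹ := by
  rw [eq_inv_iff_mul_eq_one, ← pow_add]
  have hne : NeZero a := ⟨ha⟩
  have h1 : (-a).val + a.val = m := by
    rw [ZMod.val_neg_of_ne_zero a]
    have := ZMod.val_lt a
    omega
  rw [h1]
  exact orderOf_dvd_iff_pow_eq_one.mp hθ.dvd

lemma card_ne : (Fintype.card k : ℂ) ≠ 0 := by
  exact_mod_cast Fintype.card_ne_zero

lemma gauss_mul_sq {χ : MulChar k ℂ} (hχ : χ ≠ 1) {ψ : AddChar k ℂ} (hψ : ψ ≠ 1) :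
    (gaussSum χ ψ * gaussSum χ⁻¹ ψ) ^ 2 = (Fintype.card k : ℂ) ^ 2 := by
  classical
  have h1 := gaussSum_mul_gaussSum_eq_card hχ (AddChar.IsPrimitive.of_ne_one hψ)
  have h2 := gaussSum_mulShift_eq χ⁻¹ ψ (-1 : kˣ)
  rw [Units.val_neg, Units.val_one, ← AddChar.inv_mulShift, inv_inv] at h2
  rw [h2] at h1
  have h3 : (χ (-1)) ^ 2 = 1 := by
    rw [← map_pow, neg_one_sq, map_one]
  rw [← h1]
  linear_combination (-(gaussSum χ ψ * gaussSum χ⁻¹ ψ) ^ 2) * h3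

lemma gs_ne [NeZero m] {θ : MulChar k ℂ} (hθ : orderOf θ = m)
    (x : {a : ZMod m // a ≠ 0} × {ψ : AddChar k ℂ // ψ ≠ 1}) : gs θ x ≠ 0 := by
  intro h
  have h1 := gauss_mul_sq (pow_ne_one hθ x.1.2) x.2.2
  unfold gs at h
  rw [h, zero_mul] at h1
  have h2 := card_ne (k := k)
  have h3 : (Fintype.card k : ℂ) ^ 2 = 0 := by rw [← h1]; ring
  exact h2 (pow_eq_zero_iff (two_ne_zero) |>.mp h3)

/-- the unit `g ^ 2 / q` -/
noncomputable def uu [NeZero m] (θ : MulChar k ℂ) (hθ : orderOf θ = m)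
    (x : {a : ZMod m // a ≠ 0} × {ψ : AddChar k ℂ // ψ ≠ 1}) : ℂˣ :=
  Units.mk0 (gs θ x ^ 2 / Fintype.card k) (div_ne_zero (pow_ne_zero 2 (gs_ne hθ x)) card_ne)

/-- the class modulo torsion -/
noncomputable def cls [NeZero m] (θ : MulChar k ℂ) (hθ : orderOf θ = m)
    (x : {a : ZMod m // a ≠ 0} × {ψ : AddChar k ℂ // ψ ≠ 1}) :
    Additive (ℂˣ ⧸ CommGroup.torsion ℂˣ) :=
  Additive.ofMul (QuotientGroup.mk (uu θ hθ x))

/-- the opposite line -/
def opp (x : {a : ZMod m // a ≠ 0} × {ψ : AddChar k ℂ // ψ ≠ 1}) :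
    {a : ZMod m // a ≠ 0} × {ψ : AddChar k ℂ // ψ ≠ 1} :=
  (⟨-x.1.1, neg_ne_zero.mpr x.1.2⟩, x.2)

lemma cls_opp [NeZero m] {θ : MulChar k ℂ} (hθ : orderOf θ = m)
    (x : {a : ZMod m // a ≠ 0} × {ψ : AddChar k ℂ // ψ ≠ 1}) :
    cls θ hθ (opp x) = - cls θ hθ x := by
  have h1 : uu θ hθ (opp x) * uu θ hθ x = 1 := by
    apply Units.ext
    have h2 := gauss_mul_sq (pow_ne_one hθ x.1.2) x.2.2
    rw [← pow_neg hθ x.1.2] at h2
    have h3 := card_ne (k := k)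
    show gs θ (opp x) ^ 2 / Fintype.card k * (gs θ x ^ 2 / Fintype.card k) = 1
    rw [div_mul_div_comm, div_eq_one_iff_eq (mul_ne_zero h3 h3)]
    have h4 : gs θ (opp x) ^ 2 * gs θ x ^ 2 = (gs θ x * gs θ (opp x)) ^ 2 := by ring
    rw [h4]
    have h5 : (gs θ x * gs θ (opp x)) ^ 2 = (Fintype.card k : ℂ) ^ 2 := h2
    rw [h5, sq]
  unfold cls
  rw [← ofMul_inv]
  congr 1
  rw [← QuotientGroup.mk_inv]
  congr 1
  exact eq_inv_of_mul_eq_one_left h1

lemma cls_sum [NeZero m] {θ : MulChar k ℂ} (hθ : orderOf θ = m) {i : ℕ}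
    (x : Fin (2 * i) → {a : ZMod m // a ≠ 0} × {ψ : AddChar k ℂ // ψ ≠ 1}) :
    ∑ j, cls θ hθ (x j) = 0 ↔
      ∃ e : ℕ, 0 < e ∧ (∏ j, gs θ (x j)) ^ e = ((Fintype.card k : ℂ) ^ i) ^ e := by
  have hq := card_ne (k := k)
  have h1 : ∑ j, cls θ hθ (x j) =
      Additive.ofMul (QuotientGroup.mk (∏ j, uu θ hθ (x j)) : ℂˣ ⧸ CommGroup.torsion ℂˣ) := by
    have h2 : (QuotientGroup.mk (∏ j, uu θ hθ (x j)) : ℂˣ ⧸ CommGroup.torsion ℂˣ) =
        ∏ j, (QuotientGroup.mk (uu θ hθ (x j)) : ℂˣ ⧸ CommGroup.torsion ℂˣ) :=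
      map_prod (QuotientGroup.mk' (CommGroup.torsion ℂˣ)) _ _
    rw [h2, ofMul_prod]
    rfl
  have h3 : (((∏ j, uu θ hθ (x j) : ℂˣ)) : ℂ) =
      (∏ j, gs θ (x j)) ^ 2 / ((Fintype.card k : ℂ) ^ i) ^ 2 := by
    rw [Units.coe_prod]
    show ∏ j, (gs θ (x j) ^ 2 / Fintype.card k) = _
    rw [Finset.prod_div_distrib, Finset.prod_pow, Finset.prod_const, Finset.card_univ,
      Fintype.card_fin, ← pow_mul, mul_comm i 2]
  rw [h1, ofMul_eq_zero, QuotientGroup.eq_one_iff, CommGroup.mem_torsion, isOfFinOrder_iff_pow_eq_one]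
  constructor
  · rintro ⟨e, he, h⟩
    refine ⟨2 * e, by omega, ?_⟩
    have h4 := congrArg Units.val h
    rw [Units.val_pow_eq_pow_val, h3, Units.val_one, div_pow, div_eq_one_iff_eq (by positivity)] at h4
    rw [pow_mul, pow_mul]
    exact h4
  · rintro ⟨e, he, h⟩
    refine ⟨e, he, ?_⟩
    apply Units.ext
    rw [Units.val_pow_eq_pow_val, h3, Units.val_one, div_pow, div_eq_one_iff_eq (by positivity),
      ← pow_mul, mul_comm 2 e, pow_mul, h, ← pow_mul, ← pow_mul, ← pow_mul, ← pow_mul]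
    congr 1
    ring

end lines

section count

variable {k : Type} [Field k] [Fintype k] {p m : ℕ}

open scoped Classical in
/-- the value of a line -/
noncomputable def lv [NeZero m] (θ : MulChar k ℂ) (hθ : orderOf θ = m) (F : Finset ℕ)
    (x : {a : ZMod m // a ≠ 0} × {ψ : AddChar k ℂ // ψ ≠ 1}) :
    (F → ZMod 2) × Additive (ℂˣ ⧸ CommGroup.torsion ℂˣ) :=
  (fun n => if Supp (n : ℕ).primeFactors x.1.1 then 1 else 0, cls θ hθ x)

lemma lv_opp [NeZero m] {θ : MulChar k ℂ} (hθ : orderOf θ = m) (F : Finset ℕ)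
    (x : {a : ZMod m // a ≠ 0} × {ψ : AddChar k ℂ // ψ ≠ 1}) :
    lv θ hθ F (opp x) = - lv θ hθ F x := by
  unfold lv
  refine Prod.ext ?_ (cls_opp hθ x)
  funext n
  have h1 : Supp (n : ℕ).primeFactors (opp x).1.1 ↔ Supp (n : ℕ).primeFactors x.1.1 := by
    unfold Supp opp; rw [addOrderOf_neg]
  show (if Supp (n : ℕ).primeFactors (opp x).1.1 then (1 : ZMod 2) else 0) =
    -(if Supp (n : ℕ).primeFactors x.1.1 then (1 : ZMod 2) else 0)
  by_cases h : Supp (n : ℕ).primeFactors x.1.1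
  · rw [if_pos h, if_pos (h1.mpr h)]; rfl
  · rw [if_neg h, if_neg (fun h' => h (h1.mp h'))]; rfl

open scoped Classical in
lemma lv_sum [NeZero m] {θ : MulChar k ℂ} (hθ : orderOf θ = m) (F : Finset ℕ) {n : ℕ}
    (x : Fin n → {a : ZMod m // a ≠ 0} × {ψ : AddChar k ℂ // ψ ≠ 1}) :
    ∑ j, lv θ hθ F (x j) = (fun n : F => (((univ.val.map fun j => (x j).1.1).countP
      (Supp (n : ℕ).primeFactors) : ℕ) : ZMod 2), ∑ j, cls θ hθ (x j)) := by
  refine Prod.ext ?_ ?_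
  · funext n
    rw [Prod.fst_sum, Finset.sum_apply]
    show ∑ j, (if Supp (n : ℕ).primeFactors (x j).1.1 then (1 : ZMod 2) else 0) =
      (((univ.val.map fun j => (x j).1.1).countP (Supp (n : ℕ).primeFactors) : ℕ) : ZMod 2)
    rw [Finset.sum_boole, Multiset.countP_map]
    rfl
  · rw [Prod.snd_sum]
    rfl

/-- the Tate lines: some power of the product of the Gauss sums is the power of `q ^ i` -/
def TL (θ : MulChar k ℂ) {i : ℕ}
    (x : Fin (2 * i) → {a : ZMod m // a ≠ 0} × {ψ : AddChar k ℂ // ψ ≠ 1}) : Prop :=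
  ∃ e : ℕ, 0 < e ∧ (∏ j, gs θ (x j)) ^ e = ((Fintype.card k : ℂ) ^ i) ^ e

open scoped Classical in
/-- **The proportion of the algebraic Tate lines.** -/
theorem count_lines [Fact p.Prime] [CharP k p] [NeZero m] (hmk : m ∣ Fintype.card k - 1)
    (θ : MulChar k ℂ) (hθ : orderOf θ = m) {i : ℕ} (hi : 0 < i) (F : Finset ℕ)
    (hF : ∀ n : ℕ, Squarefree n → ¬ 2 ∣ n → 1 < n → n ∣ m → ¬ H916Y.Dead p n.primeFactors →
      ¬ JacRel p m n → ¬ SqEven p m n → n ∈ F) :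
    Nat.card {x : Fin (2 * i) → {a : ZMod m // a ≠ 0} × {ψ : AddChar k ℂ // ψ ≠ 1} //
        TL θ x} ≤
      2 ^ F.card * Nat.card {x : Fin (2 * i) →
        {a : ZMod m // a ≠ 0} × {ψ : AddChar k ℂ // ψ ≠ 1} //
          TL θ x ∧ Gen2 p m (univ.val.map fun j => (x j).1.1)} := by
  have hp : p.Prime := Fact.out
  have hm : 0 < m := Nat.pos_of_ne_zero (NeZero.ne m)
  let α := {a : ZMod m // a ≠ 0} × {ψ : AddChar k ℂ // ψ ≠ 1}
  let f : α → (F → ZMod 2) × Additive (ℂˣ ⧸ CommGroup.torsion ℂˣ) := lv θ hθ F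
  have hν : ∀ a : α, opp (opp a) = a := fun a =>
    Prod.ext (Subtype.ext (neg_neg a.1.1)) rfl
  have hf : ∀ a : α, f (opp a) = - f a := fun a => lv_opp hθ F a
  let Fσ : (F → ZMod 2) × Additive (ℂˣ ⧸ CommGroup.torsion ℂˣ) → Finset (Fin (2 * i) → α) :=
    fun σ => univ.filter fun a : Fin (2 * i) → α => ∑ j, f (a j) = σ
  have hw : ∀ σ, (Fσ σ).card ≤ (Fσ 0).card := fun σ => by
    simp only [Fσ]
    convert J4.H26.walk f opp hν hf i σ
  let H : Finset (Fin (2 * i) → α) := univ.filter fun a => TL θ a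
  have hH : H ⊆ (univ : Finset (F → ZMod 2)).biUnion fun τ => Fσ (τ, 0) := by
    intro a ha
    have ha' : TL θ a := (mem_filter.mp ha).2
    rw [mem_biUnion]
    refine ⟨fun n : F => (((univ.val.map fun j => (a j).1.1).countP
      (Supp (n : ℕ).primeFactors) : ℕ) : ZMod 2), mem_univ _, ?_⟩
    simp only [Fσ, mem_filter, mem_univ, true_and]
    show ∑ j, lv θ hθ F (a j) = _
    rw [lv_sum]
    exact Prod.ext rfl ((cls_sum hθ a).mpr ha')
  have hcF : (univ : Finset (F → ZMod 2)).card = 2 ^ F.card := by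
    rw [card_univ, Fintype.card_fun, ZMod.card, Fintype.card_coe]
  have h1 : H.card ≤ 2 ^ F.card * (Fσ 0).card := by
    refine (card_le_card hH).trans ?_
    refine card_biUnion_le.trans ?_
    calc ∑ τ : F → ZMod 2, (Fσ (τ, 0)).card ≤ ∑ _τ : F → ZMod 2, (Fσ 0).card :=
          sum_le_sum fun τ _ => hw _
      _ = 2 ^ F.card * (Fσ 0).card := by rw [sum_const, smul_eq_mul, hcF]
  have h2 : Nat.card {x : Fin (2 * i) → α // TL θ x} = H.card := by
    rw [Nat.card_eq_fintype_card, Fintype.card_subtype]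
  have h3 : (Fσ 0).card ≤ Nat.card {x : Fin (2 * i) → α //
      TL θ x ∧ Gen2 p m (univ.val.map fun j => (x j).1.1)} := by
    rw [Nat.card_eq_fintype_card, Fintype.card_subtype]
    refine card_le_card fun a ha => ?_
    have h4 : ∑ j, lv θ hθ F (a j) = 0 := (mem_filter.mp ha).2
    rw [lv_sum] at h4
    have h5 := congrArg Prod.fst h4
    have h6 : TL θ a := (cls_sum hθ a).mp (congrArg Prod.snd h4)
    rw [mem_filter]
    refine ⟨mem_univ _, h6, ?_⟩
    obtain ⟨e, he, h⟩ := h6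
    obtain ⟨hpm, hrel⟩ := rel_of_tuple hmk θ hθ i (fun j => (a j).1.1) (fun j => (a j).1.2)
      (fun j => (a j).2.1) (fun j => (a j).2.2) e he hi h
    have hcard : Multiset.card (univ.val.map fun j => (a j).1.1) = 2 * i := by
      rw [Multiset.card_map]
      simp
    refine gen2_of_free hp hm hpm ?_ ?_ ?_ hrel ?_
    · intro h0
      obtain ⟨j, -, hj⟩ := Multiset.mem_map.mp h0
      exact (a j).1.2 hj
    · rw [hcard]; exact ⟨i, by omega⟩
    · intro h0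
      rw [h0, Multiset.card_zero] at hcard
      omega
    · intro n e1 e2 e3 e4 e5 e6 e7
      have e8 := hF n e1 e2 e3 e4 e5 e6 e7
      have e9 := congrFun h5 ⟨n, e8⟩
      exact (ZMod.natCast_eq_zero_iff_even).mp e9
  rw [h2]
  exact h1.trans (Nat.mul_le_mul le_rfl h3)

end count

end Pool.Agent.J4.H5.AS
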