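import Pool.Agent.H916Y.Fams3

/-!
# The degrees with the prime divisors `{2, 3, 11}` and `{2, 3, 13}`, from parities

Copies of `all2311` and `all2313` of `Pool.Agent.H916Y.Fams3`, where the condition that four does not
divide the degree is replaced by the parities for which it is used.
-/

set_option linter.unusedSectionVars false
set_option linter.unusedVariables false

namespace Pool.Agent.J4.H5.AS

open Finset Pool.Agent.H916R2 Pool.Agent.H916T Pool.Agent.H916U Pool.Agent.H916Z Pool.Agent.H916Q
open Pool.Agent.H916Y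

variable {p : ℕ}

theorem all2311' {m : ℕ} (hp : p.Prime) (hm : 0 < m) (hpm : p.Coprime m)
    (hpr : ∀ q, q.Prime → q ∣ m → q = 2 ∨ q = 3 ∨ q = 11) {s : Multiset (ZMod m)}
    (hs : IsTate p m s) (hne : s ≠ 0)
    (hE : jacobiSym p 11 = 1 → Even (s.countP (Supp {11}))) : Concl p m s := by
  have hz : NeZero m := ⟨hm.ne'⟩
  have hself : ∀ q, q.Prime → q ∣ m → q ≠ p := by
    rintro q hq h rfl
    exact (hp.coprime_iff_not_dvd.mp hpm) h
  by_cases h2 : p = 2
  · subst h2
    exact Fixed.finish (q1 := 3) (q2 := 11) (G := []) (k := 1) hp hm (by norm_num) (one_mul m)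
      hpm hs hne ⟨0, by simp, by simp⟩ hpr
      (Or.inl (dead_of (j := 1) (prod_sing 3) (by norm_num)))
      (Or.inl (dead_of (j := 5) (prod_sing 11) (by norm_num)))
      (Or.inl (dead_of (n := 33) (j := 5) (by decide) (by norm_num)))
  by_cases h3 : p = 3
  · subst h3
    have hM : 0 < 11 * m := by omega
    have hzM : NeZero (11 * m) := ⟨hM.ne'⟩
    have hpM : Nat.Coprime 3 (11 * m) := Nat.Coprime.mul_right (by norm_num) hpm
    have hprM : ∀ q, q.Prime → q ∣ 11 * m → q = 2 ∨ q = 3 ∨ q = 11 :=
      dvd_cases hpr (by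
        intro q hq h
        exact Or.inr (Or.inr ((Nat.prime_dvd_prime_iff_eq hq (by norm_num)).mp h)))
    refine Fixed.finish1 (q := 11) (G := [{11}]) (k := 11) hp hm (by norm_num) rfl hpM
      hs hne ?_ ?_ (Or.inr (by simp))
    · apply Fixed.start
      intro S hS
      rw [List.mem_singleton.mp hS]
      rw [countP_iota rfl]
      exact hE (by norm_num)
    · refine dvd_cases (fun q hq h => ?_) (fun q hq h => ?_)
      · rcases hpr q hq h with h' | h' | h'
        · exact Or.inl h'
        · exact absurd h' (hself q hq h)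
        · exact Or.inr h'
      · exact Or.inr ((Nat.prime_dvd_prime_iff_eq hq (by norm_num)).mp h)
  by_cases h11 : p = 11
  · subst h11
    have hM : 0 < 12 * m := by omega
    have hpM : Nat.Coprime 11 (12 * m) := Nat.Coprime.mul_right (by norm_num) hpm
    have F := (Fixed.start (p := 11) (s.map (iota 12 : ZMod m → ZMod (12 * m))) [] (by simp)).step
      (k := m) hM (mul_comm _ _) hpM (t3 (p := 11) (by norm_num)) {3} (by decide) (by simp)
    refine F.finish1 (q := 3) hp hm (by norm_num) rfl hpM hs hne ?_ (Or.inr (by simp))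
    refine dvd_cases (fun q hq h => ?_) (fun q hq h => ?_)
    · rcases hpr q hq h with h' | h' | h'
      · exact Or.inl h'
      · exact Or.inr h'
      · exact absurd h' (hself q hq h)
    · have := prime_dvd_list hq [2, 2, 3] (by simpa using h) (by simp; norm_num)
      simp at this; tauto
  have hp132 : p.Coprime 132 := coprime_of_cases hp [2, 2, 3, 11] (by norm_num)
    (by simp; norm_num) (by simp; tauto)
  have hp66 : p.Coprime 66 := Nat.Coprime.coprime_dvd_right (by norm_num) hp132
  have hp33 : p.Coprime 33 := Nat.Coprime.coprime_dvd_right (by norm_num) hp132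
  have hp12 : p.Coprime 12 := Nat.Coprime.coprime_dvd_right (by norm_num) hp132
  have hp11 : p.Coprime 11 := Nat.Coprime.coprime_dvd_right (by norm_num) hp132
  have hM : 0 < 132 * m := by omega
  have hzM : NeZero (132 * m) := ⟨hM.ne'⟩
  have hM' : 0 < 33 * m := by omega
  have hzM' : NeZero (33 * m) := ⟨hM'.ne'⟩
  have hpM : Nat.Coprime p (132 * m) := Nat.Coprime.mul_right hp132 hpm
  have hpM' : Nat.Coprime p (33 * m) := Nat.Coprime.mul_right hp33 hpm
  have hprM : ∀ q, q.Prime → q ∣ 132 * m → q = 2 ∨ q = 3 ∨ q = 11 :=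
    dvd_cases hpr (by
      intro q hq h
      have := prime_dvd_list hq [2, 2, 3, 11] (by simpa using h) (by simp; norm_num)
      simp at this; tauto)
  have hprM' : ∀ q, q.Prime → q ∣ 33 * m → q = 2 ∨ q = 3 ∨ q = 11 :=
    dvd_cases hpr (by
      intro q hq h
      have := prime_dvd_list hq [3, 11] (by simpa using h) (by simp; norm_num)
      simp at this; tauto)
  have F1 : Dead p {11} ∨ Fixed p (132 * m) (s.map (iota 132 : ZMod m → ZMod (132 * m)))
      [{11}] := by
    have hf : Fact (Nat.Prime 11) := ⟨by norm_num⟩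
    rcases jacobiSym.eq_one_or_neg_one (a := p) (b := 11) (by
      rw [Int.gcd_natCast_natCast]; exact hp11) with hJ | hJ
    · right
      apply Fixed.start
      intro S hS
      rw [List.mem_singleton.mp hS]
      rw [countP_iota rfl]
      exact hE hJ
    · left
      exact dead_of_neg (by norm_num) hJ
  rcases F1 with hD | F1
  · have F1 := (Fixed.start (p := p) (s.map (iota 132 : ZMod m → ZMod (132 * m))) []
      (by simp)).step (k := 2 * m) hM (by ring) hpM (t311 hp66) {3, 11} (by decide) (by simp)
    have F2 := F1.step (k := 11 * m) hM (by ring) hpM (t3 hp12) {3} (by decide) (by decide)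
    exact F2.finish (q1 := 3) (q2 := 11) hp hm (by norm_num) rfl hpM hs hne hprM
      (Or.inr (by simp)) (Or.inl hD) (Or.inr (by simp))
  · have F2 := F1.step (k := 2 * m) hM (by ring) hpM (t311 hp66) {3, 11} (by decide) (by decide)
    have F3 := F2.step (k := 11 * m) hM (by ring) hpM (t3 hp12) {3} (by decide) (by decide)
    exact F3.finish (q1 := 3) (q2 := 11) hp hm (by norm_num) rfl hpM hs hne hprM
      (Or.inr (by simp)) (Or.inr (by simp)) (Or.inr (by simp))

theorem all2313' {m : ℕ} (hp : p.Prime) (hm : 0 < m) (hpm : p.Coprime m)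
    (hpr : ∀ q, q.Prime → q ∣ m → q = 2 ∨ q = 3 ∨ q = 13) {s : Multiset (ZMod m)}
    (hs : IsTate p m s) (hne : s ≠ 0)
    (hEa : jacobiSym p 39 = 1 → Even (s.countP (Supp {3, 13})))
    (hEb : p ^ 3 % 13 = 1 → Even (s.countP (Supp {13}))) : Concl p m s := by
  have hz : NeZero m := ⟨hm.ne'⟩
  have hself : ∀ q, q.Prime → q ∣ m → q ≠ p := by
    rintro q hq h rfl
    exact (hp.coprime_iff_not_dvd.mp hpm) h
  by_cases h2 : p = 2
  · subst h2
    have hM : 0 < 39 * m := by omega
    have hzM : NeZero (39 * m) := ⟨hM.ne'⟩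
    have hpM : Nat.Coprime 2 (39 * m) := Nat.Coprime.mul_right (by norm_num) hpm
    have hprM : ∀ q, q.Prime → q ∣ 39 * m → q = 2 ∨ q = 3 ∨ q = 13 :=
      dvd_cases hpr (by
        intro q hq h
        have := prime_dvd_list hq [3, 13] (by simpa using h) (by simp; norm_num)
        simp at this; tauto)
    refine Fixed.finish (q1 := 3) (q2 := 13) (G := [{3, 13}]) hp hm (by norm_num) rfl hpM hs hne
      ?_ hprM (Or.inl (dead_of (j := 1) (prod_sing 3) (by norm_num)))
      (Or.inl (dead_of (j := 6) (prod_sing 13) (by norm_num))) (Or.inr (by simp))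
    apply Fixed.start
    intro S hS
    rw [List.mem_singleton.mp hS]
    rw [countP_iota rfl]
    exact hEa (by norm_num)
  by_cases h3 : p = 3
  · subst h3
    have hM : 0 < 13 * m := by omega
    have hzM : NeZero (13 * m) := ⟨hM.ne'⟩
    have hpM : Nat.Coprime 3 (13 * m) := Nat.Coprime.mul_right (by norm_num) hpm
    have hprM : ∀ q, q.Prime → q ∣ 13 * m → q = 2 ∨ q = 3 ∨ q = 13 :=
      dvd_cases hpr (by
        intro q hq h
        exact Or.inr (Or.inr ((Nat.prime_dvd_prime_iff_eq hq (by norm_num)).mp h)))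
    refine Fixed.finish1 (q := 13) (G := [{13}]) (k := 13) hp hm (by norm_num) rfl hpM
      hs hne ?_ ?_ (Or.inr (by simp))
    · apply Fixed.start
      intro S hS
      rw [List.mem_singleton.mp hS]
      rw [countP_iota rfl]
      exact hEb (by norm_num)
    · refine dvd_cases (fun q hq h => ?_) (fun q hq h => ?_)
      · rcases hpr q hq h with h' | h' | h'
        · exact Or.inl h'
        · exact absurd h' (hself q hq h)
        · exact Or.inr h'
      · exact Or.inr ((Nat.prime_dvd_prime_iff_eq hq (by norm_num)).mp h)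
  by_cases h13 : p = 13
  · subst h13
    have hM : 0 < 12 * m := by omega
    have hpM : Nat.Coprime 13 (12 * m) := Nat.Coprime.mul_right (by norm_num) hpm
    have F := (Fixed.start (p := 13) (s.map (iota 12 : ZMod m → ZMod (12 * m))) [] (by simp)).step
      (k := m) hM (mul_comm _ _) hpM (t3 (p := 13) (by norm_num)) {3} (by decide) (by simp)
    refine F.finish1 (q := 3) hp hm (by norm_num) rfl hpM hs hne ?_ (Or.inr (by simp))
    refine dvd_cases (fun q hq h => ?_) (fun q hq h => ?_)
    · rcases hpr q hq h with h' | h' | h'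
      · exact Or.inl h'
      · exact Or.inr h'
      · exact absurd h' (hself q hq h)
    · have := prime_dvd_list hq [2, 2, 3] (by simpa using h) (by simp; norm_num)
      simp at this; tauto
  have hp156 : p.Coprime 156 := coprime_of_cases hp [2, 2, 3, 13] (by norm_num)
    (by simp; norm_num) (by simp; tauto)
  have hp39 : p.Coprime 39 := Nat.Coprime.coprime_dvd_right (by norm_num) hp156
  have hp12 : p.Coprime 12 := Nat.Coprime.coprime_dvd_right (by norm_num) hp156
  have hM : 0 < 156 * m := by omega
  have hzM : NeZero (156 * m) := ⟨hM.ne'⟩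
  have hM' : 0 < 39 * m := by omega
  have hzM' : NeZero (39 * m) := ⟨hM'.ne'⟩
  have hpM : Nat.Coprime p (156 * m) := Nat.Coprime.mul_right hp156 hpm
  have hpM' : Nat.Coprime p (39 * m) := Nat.Coprime.mul_right hp39 hpm
  have hprM : ∀ q, q.Prime → q ∣ 156 * m → q = 2 ∨ q = 3 ∨ q = 13 :=
    dvd_cases hpr (by
      intro q hq h
      have := prime_dvd_list hq [2, 2, 3, 13] (by simpa using h) (by simp; norm_num)
      simp at this; tauto)
  have hprM' : ∀ q, q.Prime → q ∣ 39 * m → q = 2 ∨ q = 3 ∨ q = 13 :=
    dvd_cases hpr (by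
      intro q hq h
      have := prime_dvd_list hq [3, 13] (by simpa using h) (by simp; norm_num)
      simp at this; tauto)
  -- the case distinction modulo 39
  have hE39 : jacobiSym p 39 = 1 →
      Even ((s.map (iota 156 : ZMod m → ZMod (156 * m))).countP (Supp {3, 13})) := by
    intro hJ
    rw [countP_iota rfl]
    exact hEa hJ
  have hE13 : p ^ 3 % 13 = 1 →
      Even ((s.map (iota 156 : ZMod m → ZMod (156 * m))).countP (Supp {13})) := by
    intro hJ
    rw [countP_iota rfl]
    exact hEb hJ
  have hcas : ∀ r < 39, Nat.Coprime r 39 →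
      r ∈ [1, 16, 22, 4, 10, 25, 2, 5, 8, 11, 20, 32] ∨
      r ∈ [7, 19, 28, 31, 34, 37] ∨ r ∈ [14, 29, 35] ∨ r ∈ [17, 23, 38] := by
    intro r hr
    interval_cases r <;> decide
  have h39 := hcas (p % 39) (Nat.mod_lt _ (by norm_num)) (mod_coprime hp39)
  have hJ39 : ∀ c, p % 39 = c → jacobiSym (c : ℤ) 39 = 1 → jacobiSym p 39 = 1 := by
    intro c hc h
    rw [jac_of_mod hc]; exact h
  have h13m : p ^ 3 % 13 = (p % 39) ^ 3 % 13 := by
    have h1 : p % 13 = (p % 39) % 13 := (Nat.mod_mod_of_dvd p (by norm_num : 13 ∣ 39)).symm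
    rw [Nat.pow_mod, h1, ← Nat.pow_mod]
  -- the three states
  have key : (Dead p {13} ∨ Even ((s.map (iota 156 : ZMod m → ZMod (156 * m))).countP
      (Supp {13}))) := by
    have hc : ∀ r < 13, Nat.Coprime r 13 → (r ^ 3 % 13 = 1) ∨ (r ^ 6 + 1) % 13 = 0 ∨
        (r ^ 3 + 1) % 13 = 0 := by decide
    rcases hc (p % 13) (Nat.mod_lt _ (by norm_num)) (mod_coprime
      (Nat.Coprime.coprime_dvd_right (by norm_num) hp39)) with h | h | h
    · right
      apply hE13
      rw [Nat.pow_mod]; exact h
    · left
      refine dead_of (j := 6) (prod_sing 13) ?_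
      rw [Nat.add_mod, Nat.pow_mod] at h ⊢
      simpa using h
    · left
      refine dead_of (j := 3) (prod_sing 13) ?_
      rw [Nat.add_mod, Nat.pow_mod] at h ⊢
      simpa using h
  -- fix the support `{3, 13}`, keeping `{13}`
  have fin : ∀ G : List (Finset ℕ), Fixed p (156 * m) (s.map (iota 156 : ZMod m → ZMod (156 * m))) G →
      (∀ S ∈ G, Even (([{2, 3}, {3}, {2}, {2, 3}] : List (Finset ℕ)).count S)) →
      (Dead p {13} ∨ {13} ∈ G) → (Dead p {3, 13} ∨ {3, 13} ∈ G) → Concl p m s := by
    intro G F hG h1 h2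
    have F2 := F.step (k := 13 * m) hM (by ring) hpM (t3 hp12) {3} (by decide) hG
    exact F2.finish (q1 := 3) (q2 := 13) hp hm (by norm_num) rfl hpM hs hne hprM
      (Or.inr (by simp)) (h1.imp id (fun h => List.mem_cons_of_mem _ h))
      (h2.imp id (fun h => List.mem_cons_of_mem _ h))
  have viaE : jacobiSym p 39 = 1 → Concl p m s := by
    intro hJ
    rcases key with hD | hE
    · refine fin [{3, 13}] (Fixed.start _ _ ?_) (by decide) (Or.inl hD) (Or.inr (by simp))
      intro S hS
      rw [List.mem_singleton.mp hS]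
      exact hE39 hJ
    · refine fin [{13}, {3, 13}] (Fixed.start _ _ ?_) (by decide) (Or.inr (by simp))
        (Or.inr (by simp))
      intro S hS
      simp only [List.mem_cons, List.not_mem_nil, or_false] at hS
      rcases hS with rfl | rfl
      · exact hE
      · exact hE39 hJ
  rcases h39 with h | h | h | h
  · simp only [List.mem_cons, List.not_mem_nil, or_false] at h
    rcases h with h | h | h | h | h | h | h | h | h | h | h | h <;>
      exact viaE (hJ39 _ h (by norm_num))
  · -- non-residues, one modulo three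
    have hD : Dead p {13} := by
      have hc : ∀ r ∈ [7, 19, 28, 31, 34, 37], (r ^ 6 % 13 + 1) % 13 = 0 := by decide
      refine dead_of (j := 6) (prod_sing 13) ?_
      have h1 := hc _ h
      have h2 : p ^ 6 % 13 = (p % 39) ^ 6 % 13 := by
        have h1 : p % 13 = (p % 39) % 13 := (Nat.mod_mod_of_dvd p (by norm_num : 13 ∣ 39)).symm
        rw [Nat.pow_mod, h1, ← Nat.pow_mod]
      omega
    have F := (Fixed.start (p := p) (s.map (iota 156 : ZMod m → ZMod (156 * m))) []
      (by simp)).step (k := 4 * m) hM (by ring) hpM (v1 hp39 h) {3, 13} (by decide) (by simp)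
    exact fin _ F (by decide) (Or.inl hD) (Or.inr (by simp))
  · -- the surface v2
    rcases key with hD | hE
    · have F := (Fixed.start (p := p) (s.map (iota 156 : ZMod m → ZMod (156 * m))) []
        (by simp)).step (k := 4 * m) hM (by ring) hpM (v2 hp39 h) {3, 13} (by decide) (by simp)
      exact fin _ F (by decide) (Or.inl hD) (Or.inr (by simp))
    · have F := (Fixed.start (p := p) (s.map (iota 156 : ZMod m → ZMod (156 * m))) [{13}]
        (by
          intro S hS
          rw [List.mem_singleton.mp hS]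
          exact hE)).step (k := 4 * m) hM (by ring) hpM (v2 hp39 h) {3, 13} (by decide)
          (by decide)
      exact fin _ F (by decide) (Or.inr (by simp)) (Or.inr (by simp))
  · -- `{3, 13}` is dead
    have hD2 : Dead p {3, 13} := by
      have hc : ∀ r ∈ [17, 23, 38], (r ^ 3 % 39 + 1) % 39 = 0 := by decide
      refine dead_of (n := 39) (j := 3) prod3_13 ?_
      have h1 := hc _ h
      have h2 : p ^ 3 % 39 = (p % 39) ^ 3 % 39 := Nat.pow_mod p 3 39
      omega
    rcases key with hD | hE
    · exact fin [] ⟨0, by simp, by simp⟩ (by simp) (Or.inl hD) (Or.inl hD2)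
    · refine fin [{13}] (Fixed.start _ _ ?_) (by decide) (Or.inr (by simp)) (Or.inl hD2)
      intro S hS
      rw [List.mem_singleton.mp hS]
      exact hE

end Pool.Agent.J4.H5.AS
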