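import Pool.Agent.J4.H5.AS.Main
import Pool.Agent.J4.H5.AS.Fams

/-!
# The degrees
-/

set_option linter.unusedSectionVars false
set_option autoImplicit false

namespace Pool.Agent.J4.H5.AS

open Finset Pool.Agent.H916R2 Pool.Agent.H916T Pool.Agent.H916U Pool.Agent.H916Z Pool.Agent.H916Q
open Pool.Agent.H916Y

variable {p : ℕ}

lemma par11 {m : ℕ} (hp : p.Prime) (hm : 0 < m) (hm4 : ¬ 4 ∣ m) (hpm : p.Coprime m)
    (hpr : ∀ q, q.Prime → q ∣ m → q = 2 ∨ q = 3 ∨ q = 11) {s : Multiset (ZMod m)}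
    (hs : Rel0 p s) (hJ : jacobiSym p 11 = 1) : Even (s.countP (Supp {11})) := by
  have hz : NeZero m := ⟨hm.ne'⟩
  have hM : 0 < 11 * m := by omega
  have hzM : NeZero (11 * m) := ⟨hM.ne'⟩
  have hp11 : p.Coprime 11 := by
    rw [Nat.coprime_primes hp (by norm_num)]
    rintro rfl
    norm_num at hJ
  have hpM : Nat.Coprime p (11 * m) := Nat.Coprime.mul_right hp11 hpm
  have h := even11 hM (not_four hm4 (by norm_num)) hpM (hs.iota rfl) (Dvd.intro m rfl)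
    (dvd_cases hpr (by
      intro q hq h
      exact Or.inr (Or.inr ((Nat.prime_dvd_prime_iff_eq hq (by norm_num)).mp h)))) hJ
  rwa [H916Y.countP_iota rfl] at h

lemma par39 {m : ℕ} (hp : p.Prime) (hm : 0 < m) (hm4 : ¬ 4 ∣ m) (hpm : p.Coprime m)
    (hpr : ∀ q, q.Prime → q ∣ m → q = 2 ∨ q = 3 ∨ q = 13) {s : Multiset (ZMod m)}
    (hs : Rel0 p s) (hJ : jacobiSym p 39 = 1) : Even (s.countP (Supp {3, 13})) := by
  have hz : NeZero m := ⟨hm.ne'⟩
  have hM : 0 < 39 * m := by omega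
  have hzM : NeZero (39 * m) := ⟨hM.ne'⟩
  have hp39 : p.Coprime 39 := by
    rw [Nat.Prime.coprime_iff_not_dvd hp]
    intro h
    have h1 := (hp.dvd_mul (m := 3) (n := 13)).mp (by simpa using h)
    rcases h1 with h1 | h1
    · rw [(Nat.prime_dvd_prime_iff_eq hp (by norm_num)).mp h1] at hJ
      norm_num at hJ
    · rw [(Nat.prime_dvd_prime_iff_eq hp (by norm_num)).mp h1] at hJ
      norm_num at hJ
  have hpM : Nat.Coprime p (39 * m) := Nat.Coprime.mul_right hp39 hpm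
  have h := even39 hM (not_four hm4 (by norm_num)) hpM (hs.iota rfl) (Dvd.intro m rfl)
    (dvd_cases hpr (by
      intro q hq h
      have := prime_dvd_list hq [3, 13] (by simpa using h) (by simp; norm_num)
      simp at this; tauto)) hJ
  rwa [H916Y.countP_iota rfl] at h

lemma par13 {m : ℕ} (hp : p.Prime) (hm : 0 < m) (hm4 : ¬ 4 ∣ m) (hpm : p.Coprime m)
    (hpr : ∀ q, q.Prime → q ∣ m → q = 2 ∨ q = 3 ∨ q = 13) {s : Multiset (ZMod m)}
    (hs : Rel0 p s) (hJ : p ^ 3 % 13 = 1) : Even (s.countP (Supp {13})) := by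
  have hz : NeZero m := ⟨hm.ne'⟩
  have hM : 0 < 13 * m := by omega
  have hzM : NeZero (13 * m) := ⟨hM.ne'⟩
  have hp13 : p.Coprime 13 := by
    rw [Nat.coprime_primes hp (by norm_num)]
    rintro rfl
    norm_num at hJ
  have hpM : Nat.Coprime p (13 * m) := Nat.Coprime.mul_right hp13 hpm
  have h := even13 hM (not_four hm4 (by norm_num)) hpM (hs.iota rfl) (Dvd.intro m rfl)
    (dvd_cases hpr (by
      intro q hq h
      exact Or.inr (Or.inr ((Nat.prime_dvd_prime_iff_eq hq (by norm_num)).mp h)))) hJ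
  rwa [H916Y.countP_iota rfl] at h

/-- **All the degrees.** -/
theorem gen2_deg {m : ℕ} (hp : p.Prime) (hm : 0 < m) (hpm : p.Coprime m)
    (hdeg : (∀ r : ℕ, r.Prime → r ∣ m → r = 2 ∨ r = 3 ∨ r = 5) ∨
      (∀ r : ℕ, r.Prime → r ∣ m → r = 2 ∨ r = 3 ∨ r = 7) ∨
      (∃ l : ℕ, l.Prime ∧ l % 8 = 7 ∧ ∀ r : ℕ, r.Prime → r ∣ m → r = 2 ∨ r = l) ∨
      (¬ 4 ∣ m ∧ ((∀ r : ℕ, r.Prime → r ∣ m → r = 2 ∨ r = 3 ∨ r = 11) ∨
        (∀ r : ℕ, r.Prime → r ∣ m → r = 2 ∨ r = 3 ∨ r = 13))))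
    {s : Multiset (ZMod m)} (h0 : (0 : ZMod m) ∉ s) (hev : Even (Multiset.card s))
    (hne : s ≠ 0) (hs : Rel0 p s) : Gen2 p m s := by
  refine gen2_of hp hm hpm h0 hev hne hs ?_
  intro M hM hpM hmM hpr s' hs' hne' hpar
  rcases hdeg with h | h | ⟨q, hq, hq7, h⟩ | ⟨h4, h | h⟩
  · exact H916Y.all235 hp hM hpM (fun r hr hrM => h r hr (hpr r hr hrM)) hs' hne'
  · exact H916Y.all237 hp hM hpM (fun r hr hrM => h r hr (hpr r hr hrM)) hs' hne'
  · exact H916Y.allq7 hp hM hpM hq hq7 (fun r hr hrM => h r hr (hpr r hr hrM)) hs' hne'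
  · exact all2311' hp hM hpM (fun r hr hrM => h r hr (hpr r hr hrM)) hs' hne'
      (fun hJ => hpar _ (par11 hp hm h4 hpm h hs hJ))
  · exact all2313' hp hM hpM (fun r hr hrM => h r hr (hpr r hr hrM)) hs' hne'
      (fun hJ => hpar _ (par39 hp hm h4 hpm h hs hJ)) (fun hJ => hpar _ (par13 hp hm h4 hpm h hs hJ))

end Pool.Agent.J4.H5.AS
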