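import Pool.Agent.J4.H5.AS.Main
import Pool.Agent.J4.H5.FP.Cnt

/-!
# Even parities at the free supports, and the proportion
-/

set_option linter.unusedSectionVars false
set_option autoImplicit false

namespace Pool.Agent.J4.H5.AS

open Finset Pool.Agent.H916R2 Pool.Agent.H916T Pool.Agent.H916U Pool.Agent.H916Z Pool.Agent.H916Q
open Pool.Agent.TH540 (SqEven)
open Pool.Agent.J4.H5.FP

variable {p : ℕ}

/-- **Even parities at the free supports, no condition on the sum.** -/
theorem gen2_of_free {m : ℕ} (hp : p.Prime) (hm : 0 < m) (hpm : p.Coprime m)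
    {s : Multiset (ZMod m)} (h0 : (0 : ZMod m) ∉ s) (hev : Even (Multiset.card s))
    (hne : s ≠ 0) (hs : Rel0 p s)
    (hfree : ∀ n : ℕ, Squarefree n → ¬ 2 ∣ n → 1 < n → n ∣ m → ¬ H916Y.Dead p n.primeFactors →
      ¬ JacRel p m n → ¬ SqEven p m n → Even (s.countP (Supp n.primeFactors))) :
    Gen2 p m s := by
  refine gen2_of hp hm hpm h0 hev hne hs ?_
  intro M hM hpM hmM hpr s' hs' hne' hpar
  refine generated_of_free hp hM hpM hs' hne' ?_
  intro n hn hn2 hn1 hnM hdead _ _
  have hnm : n ∣ m := by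
    rw [← Nat.prod_primeFactors_of_squarefree hn]
    refine (Finset.prod_dvd_prod_of_subset _ _ _ ?_).trans (Nat.prod_primeFactors_dvd m)
    intro q hq
    have hqp := Nat.prime_of_mem_primeFactors hq
    exact Nat.mem_primeFactors.mpr ⟨hqp, hpr q hqp ((Nat.dvd_of_mem_primeFactors hq).trans hnM),
      hm.ne'⟩
  exact hpar _ (even_all hm hpm hs hfree n hn hn2 hn1 hnm hdead)

end Pool.Agent.J4.H5.AS
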