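import Pool.Agent.J4.H5.AS.Cnt

/-!
# Prime power exponents have no free supports
-/

set_option linter.unusedSectionVars false
set_option autoImplicit false

namespace Pool.Agent.J4.H5.AS

open Finset Pool.Agent.H916R2 Pool.Agent.H916T Pool.Agent.H916U Pool.Agent.H916Z Pool.Agent.H916Q
open Pool.Agent.TH540 (SqEven)
open Pool.Agent.J4.H5.FP

section lines

variable {k : Type} [Field k] [Fintype k] {p m : ℕ}

theorem gen2_line [Fact p.Prime] [CharP k p] [NeZero m] (hmk : m ∣ Fintype.card k - 1)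
    (θ : MulChar k ℂ) (hθ : orderOf θ = m) {i : ℕ} (hi : 0 < i)
    (hF : p.Coprime m → ∀ n : ℕ, Squarefree n → ¬ 2 ∣ n → 1 < n → n ∣ m →
      ¬ H916Y.Dead p n.primeFactors → ¬ JacRel p m n → ¬ SqEven p m n → False)
    (x : Fin (2 * i) → {a : ZMod m // a ≠ 0} × {ψ : AddChar k ℂ // ψ ≠ 1}) (hx : TL θ x) :
    Gen2 p m (univ.val.map fun j => (x j).1.1) := by
  have hp : p.Prime := Fact.out
  have hm : 0 < m := Nat.pos_of_ne_zero (NeZero.ne m)
  obtain ⟨e, he, h⟩ := hx
  obtain ⟨hpm, hrel⟩ := rel_of_tuple hmk θ hθ i (fun j => (x j).1.1) (fun j => (x j).1.2)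
    (fun j => (x j).2.1) (fun j => (x j).2.2) e he hi h
  have hcard : Multiset.card (univ.val.map fun j => (x j).1.1) = 2 * i := by
    rw [Multiset.card_map]
    simp
  refine gen2_of_free hp hm hpm ?_ ?_ ?_ hrel ?_
  · intro h0
    obtain ⟨j, -, hj⟩ := Multiset.mem_map.mp h0
    exact (x j).1.2 hj
  · rw [hcard]; exact ⟨i, by omega⟩
  · intro h0
    rw [h0, Multiset.card_zero] at hcard
    omega
  · intro n e1 e2 e3 e4 e5 e6 e7
    exact absurd (hF hpm n e1 e2 e3 e4 e5 e6 e7) id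

end lines

/-- **Prime powers.** -/
theorem no_free {p m l r : ℕ} (hp : p.Prime) (hpm : p.Coprime m) (hl : l.Prime) (hl2 : l ≠ 2)
    (hm : m = l ^ r ∨ m = 2 * l ^ r) (n : ℕ) (hn : Squarefree n) (hn2 : ¬ 2 ∣ n) (hn1 : 1 < n)
    (hnm : n ∣ m) (hd : ¬ H916Y.Dead p n.primeFactors) (hJ : ¬ JacRel p m n)
    (hS : ¬ SqEven p m n) : False := by
  have hlf : Fact l.Prime := ⟨hl⟩
  have hlodd : Odd l := hl.odd_of_ne_two hl2
  have hnl : n ∣ l ^ r := by
    rcases hm with h | h
    · rw [h] at hnm; exact hnm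
    · rw [h] at hnm
      refine Nat.Coprime.dvd_of_dvd_mul_left ?_ hnm
      rw [Nat.coprime_comm]
      exact (Nat.prime_two.coprime_iff_not_dvd).mpr hn2
  have hnpf : n = l := by
    obtain ⟨j, _, hj⟩ := (Nat.dvd_prime_pow hl).mp hnl
    have hj0 : j ≠ 0 := by rintro rfl; rw [pow_zero] at hj; omega
    have hj1 : j = 1 := by
      by_contra hne
      have h2 : 2 ≤ j := by omega
      have h3 : l * l ∣ n := by
        rw [hj, ← sq]; exact pow_dvd_pow l h2
      have h4 := hn l h3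
      rw [Nat.isUnit_iff] at h4
      exact hl.one_lt.ne' h4
    rw [hj, hj1, pow_one]
  subst hnpf
  have hm4 : ¬ 4 ∣ m := by
    intro h4
    rcases hm with h | h
    · have h5 : 2 ∣ n ^ r := by rw [← h]; exact (by norm_num : (2 : ℕ) ∣ 4).trans h4
      have h6 := Nat.Prime.dvd_of_dvd_pow Nat.prime_two h5
      exact hn2 h6
    · have h5 : 2 ∣ n ^ r := by
        rw [h] at h4
        have : 2 * 2 ∣ 2 * n ^ r := by simpa using h4
        exact Nat.dvd_of_mul_dvd_mul_left (by norm_num) this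
      have h6 := Nat.Prime.dvd_of_dvd_pow Nat.prime_two h5
      exact hn2 h6
  have hprm : ∀ q : ℕ, q.Prime → q ≠ 2 → q ∣ m → q = n := by
    intro q hq hq2 hqm
    have h1 : q ∣ n ^ r := by
      rcases hm with h | h
      · rw [h] at hqm; exact hqm
      · rw [h] at hqm
        rcases hq.dvd_mul.mp hqm with h3 | h3
        · exact absurd ((Nat.prime_dvd_prime_iff_eq hq Nat.prime_two).mp h3) hq2
        · exact h3
    exact (Nat.prime_dvd_prime_iff_eq hq hl).mp (hq.dvd_of_dvd_pow h1)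
  have hpn : p.Coprime n := Nat.Coprime.coprime_dvd_right hnm hpm
  have hp0 : (p : ZMod n) ≠ 0 := by
    rw [Ne, ZMod.natCast_eq_zero_iff]
    intro h
    have h1 := Nat.Coprime.eq_one_of_dvd (Nat.coprime_comm.mp hpn) h
    exact hl.one_lt.ne' h1
  have hsq : IsSquare (p : ZMod n) := by
    by_contra hns
    apply hd
    have h1 := ZMod.pow_div_two_eq_neg_one_or_one n hp0
    have h2 := (ZMod.euler_criterion n hp0).not.mp hns
    have h3 := h1.resolve_left h2
    refine ⟨n / 2, ?_⟩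
    rw [Nat.prod_primeFactors_of_squarefree hn, ← ZMod.natCast_eq_zero_iff]
    push_cast
    rw [h3]; ring
  have h4 : n % 4 = 1 ∨ n % 4 = 3 := by
    have := Nat.odd_iff.mp hlodd
    omega
  rcases h4 with h4 | h4
  · apply hS
    refine ⟨fun q hq hqn => ?_, fun j hj hj2 hjm hjn => ?_, fun h => absurd h hm4⟩
    · rw [(Nat.prime_dvd_prime_iff_eq hq hl).mp hqn]
      exact ⟨h4, hsq⟩
    · exact absurd (dvd_of_eq (hprm j hj (by rintro rfl; revert hj2; decide) hjm)) hjn
  · apply hJ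
    refine ⟨n, dvd_rfl, h4, ?_, fun h => absurd h hm4, fun q hq hqo hqm hqn => ?_⟩
    · rw [← jacobiSym.legendreSym.to_jacobiSym]
      rw [legendreSym.eq_one_iff n (by exact_mod_cast hp0)]
      exact_mod_cast hsq
    · exact absurd (dvd_of_eq (hprm q hq (by rintro rfl; revert hqo; decide) hqm)) hqn

end Pool.Agent.J4.H5.AS
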