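import Pool.Agent.H916Y.Fams3
import Pool.Agent.N214.HB.Gauss

/-!
# From products of Gauss sums to Tate characters of Fermat varieties
-/

set_option linter.unusedSectionVars false
set_option autoImplicit false

namespace Pool.Agent.J4.H5.AS

open Finset Pool.Agent.H916R2 Pool.Agent.H916T Pool.Agent.H916U Pool.Agent.H916Z Pool.Agent.H916Q

/-- the part of `n` composed of the primes dividing `m` -/
lemma smooth_part (m : ℕ) : ∀ n : ℕ, 0 < n → ∃ K u : ℕ, n = K * u ∧ 0 < K ∧ u.Coprime m ∧
    ∀ l : ℕ, l.Prime → l ∣ K → l ∣ m := by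
  intro n
  induction n using Nat.strong_induction_on with
  | _ n ih =>
  intro hn
  by_cases h : n.Coprime m
  · exact ⟨1, n, (one_mul n).symm, one_pos, h, fun l hl h1 => absurd (Nat.dvd_one.mp h1) hl.ne_one⟩
  · obtain ⟨q, hq, hqn, hqm⟩ := Nat.Prime.not_coprime_iff_dvd.mp h
    obtain ⟨n', rfl⟩ := hqn
    have hn' : 0 < n' := Nat.pos_of_mul_pos_left hn
    have hlt : n' < q * n' := by
      have := hq.two_le
      nlinarith
    obtain ⟨K, u, h1, h2, h3, h4⟩ := ih n' hlt hn'
    refine ⟨q * K, u, by rw [h1]; ring, Nat.mul_pos hq.pos h2, h3, ?_⟩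
    intro l hl hlK
    rcases hl.dvd_mul.mp hlK with h5 | h5
    · rw [(Nat.prime_dvd_prime_iff_eq hl hq).mp h5]; exact hqm
    · exact h4 l hl h5

lemma coprime_mul_of {u K m : ℕ} (h : u.Coprime m) (hK : ∀ l : ℕ, l.Prime → l ∣ K → l ∣ m) :
    u.Coprime (K * m) := by
  refine Nat.Coprime.mul_right ?_ h
  by_contra hcon
  obtain ⟨q, hq, hqu, hqK⟩ := Nat.Prime.not_coprime_iff_dvd.mp hcon
  have h1 := Nat.dvd_gcd hqu (hK q hq hqK)
  rw [h] at h1
  exact hq.ne_one (Nat.dvd_one.mp h1)

lemma sum_iota {K m : ℕ} [NeZero m] (s : Multiset (ZMod m)) :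
    ∃ c : ℕ, (s.map (iota K : ZMod m → ZMod (K * m))).sum = (K : ZMod (K * m)) * c := by
  induction s using Multiset.induction_on with
  | empty => exact ⟨0, by simp⟩
  | cons a s ih =>
    obtain ⟨c, hc⟩ := ih
    refine ⟨a.val + c, ?_⟩
    rw [Multiset.map_cons, Multiset.sum_cons, hc]
    unfold iota
    push_cast
    ring

/-- **The sum zero.** -/
theorem fix_sum {p m : ℕ} (hp : p.Prime) (hm : 0 < m) (hpm : p.Coprime m)
    {s : Multiset (ZMod m)} (h0 : (0 : ZMod m) ∉ s) (hev : Even (Multiset.card s))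
    (hs : Rel0 p s) :
    ∃ K : ℕ, 0 < K ∧ p.Coprime K ∧ (∀ l : ℕ, l.Prime → l ∣ K → l ∣ m) ∧
      ∃ t : Multiset (ZMod (K * m)), (0 : ZMod (K * m)) ∉ t ∧
        IsTate p (K * m) (s.map (iota K : ZMod m → ZMod (K * m)) +
          (t + t.map fun b => -((p : ZMod (K * m)) * b))) := by
  have hz : NeZero m := ⟨hm.ne'⟩
  obtain ⟨K, u, h1, hK, h3, h4⟩ := smooth_part m (p - 1) (by have := hp.two_le; omega)
  have hpK : p.Coprime K := by
    rw [Nat.Prime.coprime_iff_not_dvd hp]
    intro h
    have h5 : p ∣ p - 1 := h1 ▸ h.mul_right u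
    have h6 := Nat.le_of_dvd (by have := hp.two_le; omega) h5
    have := hp.two_le
    omega
  have hpM : p.Coprime (K * m) := Nat.Coprime.mul_right hpK hpm
  have hM : 0 < K * m := Nat.mul_pos hK hm
  have hzM : NeZero (K * m) := ⟨hM.ne'⟩
  refine ⟨K, hK, hpK, h4, ?_⟩
  obtain ⟨c, hc⟩ := sum_iota (K := K) s
  have hu : IsUnit (u : ZMod (K * m)) := (ZMod.isUnit_iff_coprime u _).mpr (coprime_mul_of h3 h4)
  obtain ⟨u', hu'⟩ := hu.exists_right_inv
  have hp1 : ((p : ZMod (K * m)) - 1) = (K : ZMod (K * m)) * u := by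
    have h5 : ((p - 1 : ℕ) : ZMod (K * m)) = (p : ZMod (K * m)) - 1 := by
      rw [Nat.cast_sub hp.one_lt.le]; simp
    rw [← h5, h1]
    push_cast; ring
  set b : ZMod (K * m) := u' * c with hb
  have hpb : ((p : ZMod (K * m)) - 1) * b = (s.map (iota K : ZMod m → ZMod (K * m))).sum := by
    rw [hc, hp1, hb]
    linear_combination ((K : ZMod (K * m)) * c) * hu'
  have h0' : (0 : ZMod (K * m)) ∉ s.map (iota K : ZMod m → ZMod (K * m)) := by
    intro h
    obtain ⟨x, hx, hx0⟩ := Multiset.mem_map.mp h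
    rw [iota_eq_zero rfl hx0] at hx
    exact h0 hx
  have hrel : Rel0 p (s.map (iota K : ZMod m → ZMod (K * m))) := Rel0.iota rfl hs
  by_cases hb0 : b = 0
  · refine ⟨0, by simp, ?_⟩
    rw [Multiset.map_zero, add_zero, add_zero]
    refine isTate_of_W hpM h0' (by rw [Multiset.card_map]; exact hev) ?_ hrel
    rw [← hpb, hb0, mul_zero]
  · refine ⟨{b}, ?_, ?_⟩
    · rw [Multiset.mem_singleton]; exact fun h => hb0 h.symm
    rw [Multiset.map_singleton]
    have hpb0 : (p : ZMod (K * m)) * b ≠ 0 := by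
      intro h
      exact hb0 ((H916T.isUnit_p hpM).mul_right_eq_zero.mp h)
    refine isTate_of_W hpM ?_ ?_ ?_ ?_
    · intro h
      rcases Multiset.mem_add.mp h with h | h
      · exact h0' h
      · rcases Multiset.mem_add.mp h with h | h
        · rw [Multiset.mem_singleton] at h; exact hb0 h.symm
        · rw [Multiset.mem_singleton] at h
          exact hpb0 (neg_eq_zero.mp h.symm)
    · rw [Multiset.card_add, Multiset.card_add, Multiset.card_map, Multiset.card_singleton,
        Multiset.card_singleton]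
      exact hev.add (by decide)
    · rw [Multiset.sum_add, Multiset.sum_add, Multiset.sum_singleton, Multiset.sum_singleton,
        ← hpb]
      ring
    · refine hrel.add ?_
      intro t
      rw [Multiset.map_add, Multiset.sum_add, Multiset.map_singleton, Multiset.map_singleton,
        Multiset.sum_singleton, Multiset.sum_singleton]
      have h5 : (t : ZMod (K * m)) * -((p : ZMod (K * m)) * b) =
          -((p : ZMod (K * m)) * ((t : ZMod (K * m)) * b)) := by ring
      rw [h5, W_neg, W_mul, add_neg_cancel]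

/-- the conclusion for products of Artin-Schreier curves -/
def Gen2 (p m : ℕ) (s : Multiset (ZMod m)) : Prop :=
  ∃ K : ℕ, 0 < K ∧ p.Coprime K ∧ ∃ t : Multiset (ZMod (K * m)), (0 : ZMod (K * m)) ∉ t ∧
    H916T.Generated (K * m) (ZBase p (K * m)) (s.map (iota K : ZMod m → ZMod (K * m)) +
      (t + t.map fun b => -((p : ZMod (K * m)) * b)))

lemma countP_frob {p M : ℕ} [NeZero M] (hpM : p.Coprime M) (t : Multiset (ZMod M))
    (S : Finset ℕ) :
    (t.map fun b => -((p : ZMod M) * b)).countP (Supp S) = t.countP (Supp S) := by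
  rw [Multiset.countP_map, ← Multiset.countP_eq_card_filter]
  apply Multiset.countP_congr rfl
  intro a _
  unfold Supp
  have h1 : (addOrderOf a).Coprime p :=
    Nat.Coprime.symm (Nat.Coprime.coprime_dvd_right (addOrderOf_dvd_level a) hpM)
  rw [addOrderOf_neg, ← nsmul_eq_mul, Nat.Coprime.addOrderOf_nsmul h1]

/-- **From Fermat varieties to Artin-Schreier curves.** -/
theorem gen2_of {p m : ℕ} (hp : p.Prime) (hm : 0 < m) (hpm : p.Coprime m)
    {s : Multiset (ZMod m)} (h0 : (0 : ZMod m) ∉ s) (hev : Even (Multiset.card s))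
    (hne : s ≠ 0) (hs : Rel0 p s)
    (H : ∀ M : ℕ, 0 < M → p.Coprime M → m ∣ M → (∀ l : ℕ, l.Prime → l ∣ M → l ∣ m) →
      ∀ s' : Multiset (ZMod M), IsTate p M s' → s' ≠ 0 →
        (∀ S : Finset ℕ, Even (s.countP (Supp S)) → Even (s'.countP (Supp S))) →
        H916Y.Concl p M s') : Gen2 p m s := by
  have hz : NeZero m := ⟨hm.ne'⟩
  obtain ⟨K, hK, hpK, h4, t, ht0, hT⟩ := fix_sum hp hm hpm h0 hev hs
  have hM : 0 < K * m := Nat.mul_pos hK hm
  have hzM : NeZero (K * m) := ⟨hM.ne'⟩
  have hpM : p.Coprime (K * m) := Nat.Coprime.mul_right hpK hpm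
  have hne' : s.map (iota K : ZMod m → ZMod (K * m)) +
      (t + t.map fun b => -((p : ZMod (K * m)) * b)) ≠ 0 := by
    intro h
    have h5 := congrArg Multiset.card h
    rw [Multiset.card_add, Multiset.card_map, Multiset.card_zero] at h5
    have h6 : Multiset.card s = 0 := by omega
    exact hne (Multiset.card_eq_zero.mp h6)
  have hpar : ∀ S : Finset ℕ, Even (s.countP (Supp S)) →
      Even ((s.map (iota K : ZMod m → ZMod (K * m)) +
        (t + t.map fun b => -((p : ZMod (K * m)) * b))).countP (Supp S)) := by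
    intro S hS
    rw [Multiset.countP_add, Multiset.countP_add, H916Y.countP_iota rfl, countP_frob hpM]
    exact hS.add (Even.add_self _)
  obtain ⟨N, hN, hpN, hgen⟩ := H (K * m) hM hpM (Dvd.intro_left K rfl) (fun l hl h => by
    rcases hl.dvd_mul.mp h with h | h
    · exact h4 l hl h
    · exact h) _ hT hne' hpar
  have hNK : N * (K * m) = (N * K) * m := (mul_assoc N K m).symm
  have hg := hgen ((N * K) * m) hNK
  refine ⟨N * K, Nat.mul_pos hN hK, Nat.Coprime.mul_right hpN hpK,
    t.map (iota N : ZMod (K * m) → ZMod (N * K * m)), ?_, ?_⟩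
  · intro h
    obtain ⟨x, hx, hx0⟩ := Multiset.mem_map.mp h
    have hzL : NeZero (N * K * m) := ⟨(Nat.mul_pos (Nat.mul_pos hN hK) hm).ne'⟩
    rw [iota_eq_zero hNK hx0] at hx
    exact ht0 hx
  · rw [Multiset.map_add, Multiset.map_add, Multiset.map_map, Multiset.map_map] at hg
    rw [Multiset.map_map]
    have e1 : s.map ((iota N : ZMod (K * m) → ZMod (N * K * m)) ∘ iota K) =
        s.map (iota (N * K) : ZMod m → ZMod (N * K * m)) :=
      Multiset.map_congr rfl fun a _ => iota_comp hNK a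
    have e2 : t.map ((iota N : ZMod (K * m) → ZMod (N * K * m)) ∘
        fun b => -((p : ZMod (K * m)) * b)) =
        t.map ((fun b => -((p : ZMod (N * K * m)) * b)) ∘
          (iota N : ZMod (K * m) → ZMod (N * K * m))) := by
      refine Multiset.map_congr rfl fun b _ => ?_
      simp only [Function.comp_apply]
      rw [iota_neg hNK, iota_natMul hNK]
    rw [e1, e2] at hg
    exact hg

end Pool.Agent.J4.H5.AS
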