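import Pool.Agent.N214.HB.Gauss
import Pool.Agent.J4.H5.AS.Sum

/-!
# Stickelberger for products of Gauss sums, without the condition on the sum
-/

set_option autoImplicit false
set_option linter.unusedSectionVars false

namespace Pool.Agent.J4.H5.AS

open Finset Pool.Agent.Y145.DI Pool.Agent.H916T Pool.Agent.H916Z Pool.Agent.N214.HB

section main

variable {k : Type} [Field k] [Fintype k] {p m : ℕ} [Fact p.Prime] [CharP k p] [NeZero m]

/-- **Stickelberger's theorem for products of Gauss sums.** If a power of the product of the Gauss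
sums of the characters `θ ^ a`, `a ∈ s`, is the same power of `q ^ (|s| / 2)`, then `s` is a Tate
character. -/
theorem rel_of_gauss (hmk : m ∣ Fintype.card k - 1) (θ : MulChar k ℂ) (hθ : orderOf θ = m)
    (ψ : AddChar k ℂ) (hψ : ψ ≠ 1) (s : Multiset (ZMod m)) (h0 : (0 : ZMod m) ∉ s)
    (c : ℕ) (hc : Multiset.card s = 2 * c) (e : ℕ) (he : 0 < e)
    (h : ((s.map fun a => gaussSum (θ ^ a.val) ψ).prod) ^ e = ((Fintype.card k : ℂ) ^ c) ^ e) :
    p.Coprime m ∧ Rel0 p s := by
  classical
  have hm : 0 < m := Nat.pos_of_ne_zero (NeZero.ne m)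
  obtain ⟨w, ψp, hψp, hψc, hw, ho⟩ := exists_wp (p := p) k
  obtain ⟨F, hpr, hcard⟩ := FiniteField.card k p
  set T : MulChar k (PadicAlgCl p) := w ^ ((Fintype.card k - 1) / m) with hT
  obtain ⟨g, hg⟩ := IsCyclic.exists_generator (α := kˣ)
  have hTo : orderOf T = m := by
    have hQ1 : 1 < Fintype.card k := Fintype.one_lt_card
    have hd : (Fintype.card k - 1) / m ≠ 0 := by
      have := Nat.div_pos (Nat.le_of_dvd (by omega) hmk) hm
      omega
    rw [hT, orderOf_pow_of_dvd hd (by rw [ho]; exact Nat.div_dvd_of_dvd hmk), ho,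
      Nat.div_div_self hmk (by omega)]
  have hTm : T ^ m = 1 := by rw [← hTo, pow_orderOf_eq_one]
  -- the value at the generator is a primitive root
  have hTg : IsPrimitiveRoot (T (g : k)) m := by
    refine IsPrimitiveRoot.mk_of_lt _ hm ?_ ?_
    · rw [← MulChar.pow_apply_coe, hTm, MulChar.one_apply_coe]
    · intro l hl0 hl h2
      have h3 : T ^ l = 1 := by
        apply mulChar_ext_gen hg
        rw [MulChar.pow_apply_coe, h2, MulChar.one_apply_coe]
      exact absurd (orderOf_le_of_pow_eq_one hl0 h3) (by omega)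
  have hpm : Nat.Coprime p m := by
    rw [Nat.Prime.coprime_iff_not_dvd hpr]
    intro h1
    have h2 : p ∣ Fintype.card k - 1 := h1.trans hmk
    have h3 : p ∣ Fintype.card k := by
      rw [hcard]
      exact dvd_pow_self p F.pos.ne'
    have hQ1 : 1 < Fintype.card k := Fintype.one_lt_card
    have h10 : p ∣ 1 := (Nat.dvd_sub_iff_right hQ1.le h3).1 h2
    exact hpr.one_lt.ne' (Nat.dvd_one.1 h10)
  obtain ⟨n, hn⟩ : orderOf (p : ZMod m) ∣ (F : ℕ) := by
    apply orderOf_dvd_of_pow_eq_one
    have h1 : ((Fintype.card k - 1 : ℕ) : ZMod m) = 0 := (ZMod.natCast_eq_zero_iff _ _).2 hmk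
    rw [Nat.cast_sub Fintype.card_pos, hcard, sub_eq_zero] at h1
    push_cast at h1
    exact h1
  have hn0 : 0 < n := by
    rcases Nat.eq_zero_or_pos n with h1 | h1
    · rw [h1, mul_zero] at hn
      exact absurd hn F.pos.ne'
    · exact h1
  refine ⟨hpm, fun t => ?_⟩
  rw [val_sum_eq hpm s h0 t, sub_eq_zero]
  refine congrArg (Nat.cast (R := ℤ)) ?_
  -- the embedding
  set τ := (t : ZMod m).val with hτ
  have hz : IsPrimitiveRoot ((T (g : k))⁻¹ ^ τ) m :=
    hTg.inv.pow_of_coprime τ (ZMod.val_coe_unit_coprime t)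
  obtain ⟨σ, hσ⟩ := exists_sigma (p := p) hθ hg hz
  set ψs : AddChar k (PadicAlgCl p) := (σ : _ →* PadicAlgCl p).compAddChar (liftPsi ψ) with hψs
  obtain ⟨c0, hc0⟩ := exists_shift (ψ' := ψs) hψp
  have hc00 : c0 ≠ 0 := by
    rintro rfl
    rw [AddChar.mulShift_zero] at hc0
    apply hψ
    ext x
    have h1 : σ (liftPsi ψ x) = 1 := by
      have := congrArg (fun f : AddChar k (PadicAlgCl p) => f x) hc0
      simpa [hψs] using this
    have h2 : liftPsi ψ x = 1 := σ.injective (h1.trans (map_one σ).symm)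
    exact congrArg Subtype.val h2
  have hchi : (liftChi θ).ringHomComp σ = (T ^ τ)⁻¹ := by
    apply mulChar_ext_gen hg
    rw [MulChar.ringHomComp_apply, hσ, MulChar.inv_apply_eq_inv', inv_pow]
    congr 1
    exact (MulChar.pow_apply_coe T τ g).symm
  have hgs : ∀ a : ZMod m, σ (gaussSum (liftChi (θ ^ a.val)) (liftPsi ψ))
      = gaussSum ((T ^ ((t : ZMod m) * a).val)⁻¹) ψs := by
    intro a
    rw [map_gauss, liftChi_pow]
    congr 1
    rw [← MulChar.ringHomComp_pow, hchi, inv_pow, ← pow_mul]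
    congr 1
    rw [pow_eq_pow_iff_modEq, hTo]
    rw [← ZMod.natCast_eq_natCast_iff]
    push_cast
    simp only [hτ, ZMod.natCast_zmod_val]
  -- the equation in the p-adic field
  have h1 : ((s.map fun a => gaussSum (liftChi (θ ^ a.val)) (liftPsi ψ)).prod) ^ e
      = ((Fintype.card k : algebraicClosure ℚ ℂ) ^ c) ^ e := by
    apply (algebraicClosure ℚ ℂ).val.injective
    rw [map_pow, map_pow, map_pow, map_natCast, map_multiset_prod, Multiset.map_map, ← h]
    congr 2
    exact Multiset.map_congr rfl fun a _ => coe_gauss _ _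
  have h3 : (s.map fun a => gaussSum ((T ^ ((t : ZMod m) * a).val)⁻¹) ψs).prod ^ e
      = ((Fintype.card k : PadicAlgCl p) ^ c) ^ e := by
    have h4 := congrArg σ h1
    rw [map_pow, map_pow, map_pow, map_natCast, map_multiset_prod, Multiset.map_map] at h4
    rw [← h4]
    congr 2
    exact Multiset.map_congr rfl fun a _ => (hgs a).symm
  have h2 : (s.map fun a => ‖gaussSum ((T ^ ((t : ZMod m) * a).val)⁻¹) ψp‖).prod
      = ‖((p : ℕ) : PadicAlgCl p)‖ ^ ((F : ℕ) * c) := by
    have h4 := congrArg norm h3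
    rw [norm_pow, norm_pow, norm_pow] at h4
    have h5 := (pow_left_inj₀ (norm_nonneg _) (by positivity) he.ne').1 h4
    have h6 : ‖(s.map fun a => gaussSum ((T ^ ((t : ZMod m) * a).val)⁻¹) ψs).prod‖
        = (s.map fun a => ‖gaussSum ((T ^ ((t : ZMod m) * a).val)⁻¹) ψs‖).prod :=
      (map_multiset_prod (normHom : PadicAlgCl p →*₀ ℝ) _).trans (by rw [Multiset.map_map]; rfl)
    rw [h6] at h5
    have h7 : (s.map fun a => ‖gaussSum ((T ^ ((t : ZMod m) * a).val)⁻¹) ψp‖)
        = (s.map fun a => ‖gaussSum ((T ^ ((t : ZMod m) * a).val)⁻¹) ψs‖) :=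
      Multiset.map_congr rfl fun a _ => by rw [hc0, norm_gauss_shift _ _ hc00]
    rw [h7, h5, hcard]
    push_cast
    rw [norm_pow, ← pow_mul]
  have h4 : ∀ a ∈ s, ‖gaussSum ((T ^ ((t : ZMod m) * a).val)⁻¹) ψp‖ ^ m
      = ‖((p : ℕ) : PadicAlgCl p)‖ ^ expo p m F (((t : ZMod m) * a).val) := by
    intro a ha
    have ha0 : (t : ZMod m) * a ≠ 0 := by
      intro h5
      have h6 := (Units.mul_right_eq_zero t).1 h5
      exact h0 (h6 ▸ ha)
    exact norm_gauss_eq w ψp hψp hψc hw ho hcard hmk F.pos _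
      (Nat.pos_of_ne_zero fun h5 => ha0 ((ZMod.val_eq_zero _).1 h5)) (ZMod.val_lt _)
  have h5 : (s.map fun a => expo p m F (((t : ZMod m) * a).val)).sum = (F : ℕ) * c * m := by
    have h6 := congrArg (fun x => x ^ m) h2
    simp only [← Multiset.prod_map_pow, ← pow_mul] at h6
    rw [Multiset.map_congr rfl h4] at h6
    have h7 : ∀ (s' : Multiset (ZMod m)) (E : ZMod m → ℕ) (P : ℝ),
        (s'.map fun a => P ^ E a).prod = P ^ (s'.map E).sum := by
      intro s' E P
      induction s' using Multiset.induction_on with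
      | empty => simp
      | cons a s' ih => simp only [Multiset.map_cons, Multiset.prod_cons, Multiset.sum_cons,
          pow_add, ih]
    rw [h7] at h6
    obtain ⟨hp0, hp1⟩ := norm_p_lt (p := p)
    exact pow_right_injective₀ hp0 hp1.ne h6
  have h6 : ∀ a : ZMod m, expo p m F (((t : ZMod m) * a).val)
      = ∑ j ∈ range (n * orderOf (p : ZMod m)), ((p : ZMod m) ^ j * ((t : ZMod m) * a)).val := by
    intro a
    rw [expo, hn, mul_comm n]
    refine Finset.sum_congr rfl fun j _ => ?_
    rw [← ZMod.val_natCast]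
    congr 1
    push_cast
    rw [ZMod.natCast_zmod_val, mul_comm]
  have h7 : (s.map fun a => ∑ j ∈ range (n * orderOf (p : ZMod m)),
      ((p : ZMod m) ^ j * ((t : ZMod m) * a)).val).sum
      = n * ∑ j ∈ range (orderOf (p : ZMod m)),
        (s.map fun a => ((p : ZMod m) ^ j * ((t : ZMod m) * a)).val).sum := by
    rw [← sum_periodic (f := orderOf (p : ZMod m))
      (fun j => (s.map fun a => ((p : ZMod m) ^ j * ((t : ZMod m) * a)).val).sum)
      (fun j => by rw [pow_add, pow_orderOf_eq_one, mul_one]) n]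
    exact Multiset.sum_map_sum_map _ _
  rw [Multiset.map_congr rfl fun a _ => h6 a, h7, hn] at h5
  have h8 : n * (2 * ∑ j ∈ range (orderOf (p : ZMod m)),
        (s.map fun a => ((p : ZMod m) ^ j * ((t : ZMod m) * a)).val).sum)
      = n * (orderOf (p : ZMod m) * (m * Multiset.card s)) := by
    rw [hc]
    linarith
  exact Nat.eq_of_mul_eq_mul_left hn0 h8

end main

end Pool.Agent.J4.H5.AS
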